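import Mathlib
import Pool.Agent.V11170.SemiBaxter

set_option autoImplicit false

namespace Pool.Agent.Results.MP_5514a7_co.StableNonMonotone

open Finset Pool.Agent.V11170.SemiBaxter

/-! ### definitions -/

/-- `j` is an occurrence of the consecutive pattern `p` in the word `w` (positions from `0`): the
factor of length `l` starting at position `j` is order-isomorphic to `p`. -/
def IsOcc {l m n : ℕ} (p : Equiv.Perm (Fin l)) (w : Fin m → Fin n) (j : ℕ) : Prop :=
  ∃ h : j + l ≤ m, ∀ a b : Fin l,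
    w ⟨j + a, by have := a.is_lt; omega⟩ < w ⟨j + b, by have := b.is_lt; omega⟩ ↔ p a < p b

open scoped Classical in
/-- The number of occurrences of `p` in `w`. -/
noncomputable def occ {l m n : ℕ} (p : Equiv.Perm (Fin l)) (w : Fin m → Fin n) : ℕ :=
  ((range (m + 1)).filter (fun j => IsOcc p w j)).card

/-- The number of permutations of the multiset with `k a` copies of the letter `a` that have
exactly `s` occurrences of `p`. -/
noncomputable def count {l n : ℕ} (p : Equiv.Perm (Fin l)) (k : Fin n → ℕ) (s : ℕ) : ℕ :=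
  Nat.card {w : Fin (∑ a, k a) → Fin n //
    (∀ a, (univ.filter (fun t => w t = a)).card = k a) ∧ occ p w = s}

/-- The pattern is stable: the counts do not change when the multiplicities are permuted. -/
def Stable {l : ℕ} (p : Equiv.Perm (Fin l)) : Prop :=
  ∀ (n : ℕ), 1 ≤ n → ∀ (k : Fin n → ℕ) (σ : Equiv.Perm (Fin n)) (s : ℕ),
    count p k s = count p (fun a => k (σ a)) s

/-- The pattern is monotone: increasing or decreasing. -/
def Monotone {l : ℕ} (p : Equiv.Perm (Fin l)) : Prop :=
  (∀ a b, a < b → p a < p b) ∨ ∀ a b, a < b → p b < p a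

/-! ### blocks -/

/-- Occurrences of `12435` in terms of inequalities. -/
def Oc (m : ℕ) (W : ℕ → ℕ) (j : ℕ) : Prop :=
  j + 5 ≤ m ∧ W j < W (j + 1) ∧ W (j + 1) < W (j + 3) ∧ W (j + 3) < W (j + 2) ∧
    W (j + 2) < W (j + 4)

/-- The positions `r` and `r + 1` lie in a common marked window. -/
def link (S : Finset ℕ) (r : ℕ) : Prop := ∃ j ∈ S, j ≤ r ∧ r < j + 4

/-- The positions lie in the same block. -/
def conn (S : Finset ℕ) (t t' : ℕ) : Prop := ∀ r, min t t' ≤ r → r < max t t' → link S r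

theorem conn_refl (S : Finset ℕ) (t : ℕ) : conn S t t := fun r h1 h2 => by
  rw [min_self] at h1
  rw [max_self] at h2
  omega

theorem conn_symm {S : Finset ℕ} {t t' : ℕ} (h : conn S t t') : conn S t' t := by
  intro r h1 h2
  exact h r (by rwa [min_comm]) (by rwa [max_comm])

theorem conn_trans {S : Finset ℕ} {t t' t'' : ℕ} (h : conn S t t') (h' : conn S t' t'') :
    conn S t t'' := by
  intro r h1 h2
  by_cases h3 : min t t' ≤ r ∧ r < max t t'
  · exact h r h3.1 h3.2
  · exact h' r (by omega) (by omega)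

theorem conn_window {S : Finset ℕ} {j a b : ℕ} (hj : j ∈ S) (ha : a ≤ 4) (hb : b ≤ 4) :
    conn S (j + a) (j + b) := by
  intro r h1 h2
  exact ⟨j, hj, by omega, by omega⟩

/-- Comparison of consecutive linked letters. -/
theorem step_lt {m : ℕ} {S : Finset ℕ} {W : ℕ → ℕ} (hS : ∀ j ∈ S, Oc m W j) {r : ℕ}
    (h : link S r) : W r < W (r + 1) ∨ (∃ j ∈ S, r = j + 2) := by
  obtain ⟨j, hj, h1, h2⟩ := h
  obtain ⟨_, o1, o2, o3, o4⟩ := hS j hj
  rcases (by omega : r = j ∨ r = j + 1 ∨ r = j + 2 ∨ r = j + 3) with h3 | h3 | h3 | h3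
  · left
    rw [h3]
    exact o1
  · left
    rw [h3]
    show W (j + 1) < W (j + 2)
    omega
  · right
    exact ⟨j, hj, h3⟩
  · left
    rw [h3]
    show W (j + 3) < W (j + 4)
    omega

/-- Letters at distance two. -/
theorem step_two {m : ℕ} {S : Finset ℕ} {W : ℕ → ℕ} (hS : ∀ j ∈ S, Oc m W j) {r : ℕ}
    (h : link S r) (h' : link S (r + 1)) : W r < W (r + 2) := by
  obtain ⟨j, hj, h1, h2⟩ := h
  obtain ⟨j', hj', h1', h2'⟩ := h'
  obtain ⟨_, o1, o2, o3, o4⟩ := hS j hj
  obtain ⟨_, p1, p2, p3, p4⟩ := hS j' hj'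
  rcases (by omega : r = j ∨ r = j + 1 ∨ r = j + 2 ∨ r = j + 3) with h3 | h3 | h3 | h3
  · rw [h3]
    show W j < W (j + 2)
    omega
  · rw [h3]
    show W (j + 1) < W (j + 3)
    omega
  · rw [h3]
    exact o4
  · rcases (by omega : r + 1 = j' ∨ r = j' ∨ r = j' + 1 ∨ r = j' + 2) with h4 | h4 | h4 | h4
    · have e1 : W r < W (r + 1) := by
        rw [h3]
        show W (j + 3) < W (j + 4)
        omega
      have e2 : W (r + 1) < W (r + 2) := by
        rw [show r + 2 = j' + 1 by omega, h4]
        exact p1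
      omega
    · rw [h4]
      show W j' < W (j' + 2)
      omega
    · rw [h4]
      show W (j' + 1) < W (j' + 3)
      omega
    · rw [h4]
      exact p4

theorem far_lt {m : ℕ} {S : Finset ℕ} {W : ℕ → ℕ} (hS : ∀ j ∈ S, Oc m W j) :
    ∀ d t, (∀ r, t ≤ r → r < t + (d + 2) → link S r) → W t < W (t + (d + 2)) := by
  intro d
  induction d using Nat.strong_induction_on with
  | _ d ih =>
    intro t hl
    cases d with
    | zero => exact step_two hS (hl t (by omega) (by omega)) (hl (t + 1) (by omega) (by omega))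
    | succ d =>
      have h1 := ih d (by omega) t (fun r h h' => hl r h (by omega))
      rcases step_lt hS (hl (t + (d + 2)) (by omega) (by omega)) with h2 | ⟨j, hj, h2⟩
      · rw [show t + (d + 1 + 2) = t + (d + 2) + 1 by omega]
        omega
      · obtain ⟨_, o1, o2, o3, o4⟩ := hS j hj
        rw [show t + (d + 1 + 2) = j + 3 by omega]
        cases d with
        | zero =>
          rw [show t = j by omega]
          omega
        | succ d =>
          have h3 := ih d (by omega) t (fun r h h' => hl r h (by omega))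
          rw [show t + (d + 2) = j + 1 by omega] at h3
          omega

/-- The letters of a block are distinct. -/
theorem distinct {m : ℕ} {S : Finset ℕ} {W : ℕ → ℕ} (hS : ∀ j ∈ S, Oc m W j) {t t' : ℕ}
    (h : conn S t t') (hne : t ≠ t') : W t ≠ W t' := by
  have main : ∀ t t', t < t' → conn S t t' → W t ≠ W t' := by
    intro t t' hlt hc
    have hl : ∀ r, t ≤ r → r < t' → link S r := fun r h1 h2 => hc r (by omega) (by omega)
    by_cases h1 : t' = t + 1
    · subst h1
      rcases step_lt hS (hl t le_rfl (by omega)) with h2 | ⟨j, hj, h2⟩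
      · omega
      · obtain ⟨_, o1, o2, o3, o4⟩ := hS j hj
        rw [h2]
        show W (j + 2) ≠ W (j + 3)
        omega
    · obtain ⟨d, rfl⟩ : ∃ d, t' = t + (d + 2) := ⟨t' - t - 2, by omega⟩
      have := far_lt hS d t hl
      omega
  rcases Nat.lt_or_gt_of_ne hne with h1 | h1
  · exact main t t' h1 h
  · exact (main t' t h1 (conn_symm h)).symm

/-! ### the involution -/

/-- Exchange of the letters `i` and `i + 1`. -/
def tau (i x : ℕ) : ℕ := if x = i then i + 1 else if x = i + 1 then i else x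

/-- Both letters `i` and `i + 1` occur in the block of `t`. -/
def flag (m : ℕ) (S : Finset ℕ) (i : ℕ) (W : ℕ → ℕ) (t : ℕ) : Prop :=
  (∃ t', t' < m ∧ conn S t t' ∧ W t' = i) ∧ ∃ t', t' < m ∧ conn S t t' ∧ W t' = i + 1

open scoped Classical in
/-- The involution. -/
noncomputable def Phi (m : ℕ) (S : Finset ℕ) (i : ℕ) (W : ℕ → ℕ) (t : ℕ) : ℕ :=
  if flag m S i W t then W t else tau i (W t)

theorem flag_congr {m : ℕ} {S : Finset ℕ} {i : ℕ} {W : ℕ → ℕ} {t t' : ℕ} (h : conn S t t') :
    flag m S i W t ↔ flag m S i W t' := by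
  have main : ∀ t t', conn S t t' → flag m S i W t → flag m S i W t' := by
    rintro t t' h ⟨⟨a, ha, ha', ha''⟩, b, hb, hb', hb''⟩
    exact ⟨⟨a, ha, conn_trans (conn_symm h) ha', ha''⟩, b, hb, conn_trans (conn_symm h) hb', hb''⟩
  exact ⟨main t t' h, main t' t (conn_symm h)⟩

theorem Phi_pos {m : ℕ} {S : Finset ℕ} {i : ℕ} {W : ℕ → ℕ} {t : ℕ} (h : flag m S i W t) :
    Phi m S i W t = W t := if_pos h

theorem Phi_neg {m : ℕ} {S : Finset ℕ} {i : ℕ} {W : ℕ → ℕ} {t : ℕ} (h : ¬ flag m S i W t) :
    Phi m S i W t = tau i (W t) := if_neg h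

/-- The involution preserves the order inside a block. -/
theorem Phi_lt {m : ℕ} {S : Finset ℕ} {i : ℕ} {W : ℕ → ℕ} {t t' : ℕ} (ht : t < m) (ht' : t' < m)
    (h : conn S t t') (hlt : W t < W t') : Phi m S i W t < Phi m S i W t' := by
  by_cases hf : flag m S i W t
  · rw [Phi_pos hf, Phi_pos ((flag_congr h).mp hf)]
    exact hlt
  · rw [Phi_neg hf, Phi_neg (fun h' => hf ((flag_congr h).mpr h'))]
    have hn : ¬ (W t = i ∧ W t' = i + 1) := by
      rintro ⟨h1, h2⟩
      exact hf ⟨⟨t, ht, conn_refl S t, h1⟩, t', ht', h, h2⟩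
    unfold tau
    split_ifs <;> omega

theorem Phi_oc {m : ℕ} {S : Finset ℕ} {i : ℕ} {W : ℕ → ℕ} {j : ℕ} (hj : j ∈ S)
    (h : Oc m W j) : Oc m (Phi m S i W) j := by
  obtain ⟨h0, o1, o2, o3, o4⟩ := h
  refine ⟨h0, ?_, ?_, ?_, ?_⟩
  · exact Phi_lt (by omega) (by omega) (conn_window (a := 0) (b := 1) hj (by omega) (by omega)) o1
  · exact Phi_lt (by omega) (by omega) (conn_window (a := 1) (b := 3) hj (by omega) (by omega)) o2
  · exact Phi_lt (by omega) (by omega) (conn_window (a := 3) (b := 2) hj (by omega) (by omega)) o3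
  · exact Phi_lt (by omega) (by omega) (conn_window (a := 2) (b := 4) hj (by omega) (by omega)) o4

theorem tau_tau (i x : ℕ) : tau i (tau i x) = x := by
  unfold tau
  split_ifs <;> omega

theorem flag_Phi {m : ℕ} {S : Finset ℕ} {i : ℕ} {W : ℕ → ℕ} {t : ℕ} :
    flag m S i (Phi m S i W) t ↔ flag m S i W t := by
  constructor
  · rintro ⟨⟨a, ha, ha', ha''⟩, b, hb, hb', hb''⟩
    by_contra hf
    have h1 : ¬ flag m S i W a := fun h => hf ((flag_congr ha').mpr h)
    have h2 : ¬ flag m S i W b := fun h => hf ((flag_congr hb').mpr h)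
    rw [Phi_neg h1] at ha''
    rw [Phi_neg h2] at hb''
    have e1 : W a = i + 1 := by
      unfold tau at ha''
      split_ifs at ha'' <;> omega
    have e2 : W b = i := by
      unfold tau at hb''
      split_ifs at hb'' <;> omega
    exact hf ⟨⟨b, hb, hb', e2⟩, a, ha, ha', e1⟩
  · intro hf
    have hf' := hf
    obtain ⟨⟨a, ha, ha', ha''⟩, b, hb, hb', hb''⟩ := hf
    refine ⟨⟨a, ha, ha', ?_⟩, b, hb, hb', ?_⟩
    · rw [Phi_pos ((flag_congr ha').mp hf')]
      exact ha''
    · rw [Phi_pos ((flag_congr hb').mp hf')]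
      exact hb''

theorem Phi_Phi {m : ℕ} {S : Finset ℕ} {i : ℕ} {W : ℕ → ℕ} (t : ℕ) :
    Phi m S i (Phi m S i W) t = W t := by
  by_cases hf : flag m S i W t
  · rw [Phi_pos (flag_Phi.mpr hf), Phi_pos hf]
  · rw [Phi_neg (fun h => hf (flag_Phi.mp h)), Phi_neg hf, tau_tau]

/-- The number of letters `a` among the first `m`. -/
def cnt (m : ℕ) (W : ℕ → ℕ) (a : ℕ) : ℕ := ((range m).filter (fun t => W t = a)).card

theorem cnt_flag {m : ℕ} {S : Finset ℕ} {i : ℕ} {W : ℕ → ℕ} (hS : ∀ j ∈ S, Oc m W j) :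
    open scoped Classical in
    ((range m).filter (fun t => W t = i ∧ flag m S i W t)).card =
      ((range m).filter (fun t => W t = i + 1 ∧ flag m S i W t)).card := by
  classical
  have hch : ∀ t ∈ (range m).filter (fun t => W t = i ∧ flag m S i W t),
      ∃ t', t' < m ∧ conn S t t' ∧ W t' = i + 1 := by
    intro t ht
    rw [mem_filter] at ht
    exact ht.2.2.2
  apply card_bij (fun t ht => (hch t ht).choose)
  · intro t ht
    obtain ⟨h1, h2, h3⟩ := (hch t ht).choose_spec
    rw [mem_filter, mem_range] at ht ⊢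
    exact ⟨h1, h3, (flag_congr h2).mp ht.2.2⟩
  · intro t ht t' ht' h
    obtain ⟨h1, h2, h3⟩ := (hch t ht).choose_spec
    obtain ⟨h1', h2', h3'⟩ := (hch t' ht').choose_spec
    rw [mem_filter] at ht ht'
    by_contra hne
    rw [h] at h2
    exact distinct hS (conn_trans h2 (conn_symm h2')) hne (ht.2.1.trans ht'.2.1.symm)
  · intro b hb
    rw [mem_filter, mem_range] at hb
    obtain ⟨hbm, hb1, hf⟩ := hb
    obtain ⟨⟨a, ha, ha', ha''⟩, _⟩ := id hf
    have hmem : a ∈ (range m).filter (fun t => W t = i ∧ flag m S i W t) := by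
      rw [mem_filter, mem_range]
      exact ⟨ha, ha'', (flag_congr ha').mp hf⟩
    refine ⟨a, hmem, ?_⟩
    obtain ⟨h1, h2, h3⟩ := (hch a hmem).choose_spec
    by_contra hne
    exact distinct hS (conn_trans (conn_symm h2) (conn_symm ha')) hne (h3.trans hb1.symm)

theorem cnt_Phi {m : ℕ} {S : Finset ℕ} {i : ℕ} {W : ℕ → ℕ} (hS : ∀ j ∈ S, Oc m W j) (a : ℕ) :
    cnt m (Phi m S i W) a = cnt m W (tau i a) := by
  classical
  unfold cnt
  have key := cnt_flag (i := i) hS
  have split : ∀ x, ((range m).filter (fun t => W t = x)).card =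
      ((range m).filter (fun t => W t = x ∧ flag m S i W t)).card +
      ((range m).filter (fun t => W t = x ∧ ¬ flag m S i W t)).card := by
    intro x
    rw [← card_filter_add_card_filter_not (s := (range m).filter (fun t => W t = x))
      (fun t => flag m S i W t), filter_filter, filter_filter]
  have split' : ((range m).filter (fun t => Phi m S i W t = a)).card =
      ((range m).filter (fun t => W t = a ∧ flag m S i W t)).card +
      ((range m).filter (fun t => W t = tau i a ∧ ¬ flag m S i W t)).card := by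
    rw [← card_filter_add_card_filter_not (s := (range m).filter (fun t => Phi m S i W t = a))
      (fun t => flag m S i W t), filter_filter, filter_filter]
    congr 2
    · apply filter_congr
      intro t _
      constructor
      · rintro ⟨h1, h2⟩
        rw [Phi_pos h2] at h1
        exact ⟨h1, h2⟩
      · rintro ⟨h1, h2⟩
        exact ⟨by rw [Phi_pos h2]; exact h1, h2⟩
    · apply filter_congr
      intro t _
      constructor
      · rintro ⟨h1, h2⟩
        rw [Phi_neg h2] at h1
        exact ⟨by rw [← h1, tau_tau], h2⟩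
      · rintro ⟨h1, h2⟩
        exact ⟨by rw [Phi_neg h2, h1, tau_tau], h2⟩
  rw [split', split (tau i a)]
  congr 1
  by_cases h1 : a = i
  · rw [h1]
    have : tau i i = i + 1 := by
      unfold tau
      rw [if_pos rfl]
    rw [this]
    exact key
  · by_cases h2 : a = i + 1
    · rw [h2]
      have : tau i (i + 1) = i := by
        unfold tau
        rw [if_neg (by omega), if_pos rfl]
      rw [this]
      exact key.symm
    · have : tau i a = a := by
        unfold tau
        rw [if_neg h1, if_neg h2]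
      rw [this]

/-! ### words -/

/-- The extension of a word by zero. -/
noncomputable def ext {m n : ℕ} (w : Fin m → Fin n) : ℕ → ℕ :=
  fun t => if h : t < m then (w ⟨t, h⟩ : ℕ) else 0

theorem ext_of_lt {m n : ℕ} (w : Fin m → Fin n) {t : ℕ} (h : t < m) : ext w t = w ⟨t, h⟩ :=
  dif_pos h

theorem ext_val {m n : ℕ} (w : Fin m → Fin n) (t : Fin m) : ext w t = w t := by
  rw [ext_of_lt w t.is_lt]

theorem Phi_congr {m : ℕ} {S : Finset ℕ} {i : ℕ} {W W' : ℕ → ℕ} (h : ∀ t, t < m → W t = W' t)
    {t : ℕ} (ht : t < m) : Phi m S i W t = Phi m S i W' t := by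
  have hf : flag m S i W t ↔ flag m S i W' t := by
    constructor
    · rintro ⟨⟨a, ha, ha', ha''⟩, b, hb, hb', hb''⟩
      exact ⟨⟨a, ha, ha', by rw [← h a ha]; exact ha''⟩, b, hb, hb', by rw [← h b hb]; exact hb''⟩
    · rintro ⟨⟨a, ha, ha', ha''⟩, b, hb, hb', hb''⟩
      exact ⟨⟨a, ha, ha', by rw [h a ha]; exact ha''⟩, b, hb, hb', by rw [h b hb]; exact hb''⟩
  by_cases h1 : flag m S i W t
  · rw [Phi_pos h1, Phi_pos (hf.mp h1), h t ht]
  · rw [Phi_neg h1, Phi_neg (fun h2 => h1 (hf.mpr h2)), h t ht]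

theorem tau_lt {n i x : ℕ} (hi : i + 1 < n) (hx : x < n) : tau i x < n := by
  unfold tau
  split_ifs <;> omega

theorem Phi_lt_n {m n : ℕ} {S : Finset ℕ} {i : ℕ} (hi : i + 1 < n) (w : Fin m → Fin n) (t : Fin m) :
    Phi m S i (ext w) t < n := by
  have h0 : ext w t < n := by
    rw [ext_val]
    exact (w t).is_lt
  by_cases h1 : flag m S i (ext w) t
  · rw [Phi_pos h1]
    exact h0
  · rw [Phi_neg h1]
    exact tau_lt hi h0

/-- The involution on words. -/
noncomputable def PhiF {m n : ℕ} (S : Finset ℕ) {i : ℕ} (hi : i + 1 < n) (w : Fin m → Fin n) :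
    Fin m → Fin n := fun t => ⟨Phi m S i (ext w) t, Phi_lt_n hi w t⟩

theorem ext_PhiF {m n : ℕ} {S : Finset ℕ} {i : ℕ} (hi : i + 1 < n) (w : Fin m → Fin n) {t : ℕ}
    (ht : t < m) : ext (PhiF S hi w) t = Phi m S i (ext w) t := by
  rw [ext_of_lt _ ht]
  rfl

theorem PhiF_PhiF {m n : ℕ} {S : Finset ℕ} {i : ℕ} (hi : i + 1 < n) (w : Fin m → Fin n) :
    PhiF S hi (PhiF S hi w) = w := by
  funext t
  apply Fin.ext
  show Phi m S i (ext (PhiF S hi w)) t = w t
  rw [Phi_congr (fun t ht => ext_PhiF hi w ht) t.is_lt, Phi_Phi, ext_val]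

theorem Oc_congr {m : ℕ} {W W' : ℕ → ℕ} (h : ∀ t, t < m → W t = W' t) {j : ℕ}
    (ho : Oc m W j) : Oc m W' j := by
  obtain ⟨h0, o1, o2, o3, o4⟩ := ho
  rw [h _ (by omega), h _ (by omega)] at o1 o2 o3 o4
  exact ⟨h0, o1, o2, o3, o4⟩

theorem cnt_congr {m : ℕ} {W W' : ℕ → ℕ} (h : ∀ t, t < m → W t = W' t) (a : ℕ) :
    cnt m W a = cnt m W' a := by
  unfold cnt
  congr 1
  apply filter_congr
  intro t ht
  rw [h t (mem_range.mp ht)]

theorem cnt_ext {m n : ℕ} (w : Fin m → Fin n) (a : Fin n) :
    cnt m (ext w) a = (univ.filter (fun t => w t = a)).card := by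
  unfold cnt
  symm
  apply card_bij (fun (t : Fin m) _ => (t : ℕ))
  · intro t ht
    rw [mem_filter] at ht
    rw [mem_filter, mem_range, ext_val, ht.2]
    exact ⟨t.is_lt, rfl⟩
  · intro t _ t' _ h
    exact Fin.ext h
  · intro b hb
    rw [mem_filter, mem_range] at hb
    refine ⟨⟨b, hb.1⟩, ?_, rfl⟩
    rw [mem_filter]
    exact ⟨mem_univ _, Fin.ext ((ext_of_lt w hb.1).symm.trans hb.2)⟩

/-- The set of occurrences. -/
noncomputable def Occs (m : ℕ) (W : ℕ → ℕ) : Finset ℕ :=
  open scoped Classical in (range (m + 1)).filter (fun j => Oc m W j)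

theorem mem_Occs {m : ℕ} {W : ℕ → ℕ} {j : ℕ} : j ∈ Occs m W ↔ Oc m W j := by
  classical
  unfold Occs
  rw [mem_filter, mem_range]
  constructor
  · exact fun h => h.2
  · exact fun h => ⟨by have := h.1; omega, h⟩

/-- Words with given content whose set of occurrences contains `S`. -/
noncomputable def A {m n : ℕ} (k : Fin n → ℕ) (S : Finset ℕ) : Finset (Fin m → Fin n) :=
  univ.filter (fun w => (∀ a, (univ.filter (fun t => w t = a)).card = k a) ∧ S ⊆ Occs m (ext w))

/-- Words with given content whose set of occurrences is `S`. -/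
noncomputable def E {m n : ℕ} (k : Fin n → ℕ) (S : Finset ℕ) : Finset (Fin m → Fin n) :=
  univ.filter (fun w => (∀ a, (univ.filter (fun t => w t = a)).card = k a) ∧ Occs m (ext w) = S)

theorem swap_val {n : ℕ} (i : Fin n) (a : Fin (n + 1)) :
    ((Equiv.swap i.castSucc i.succ a : Fin (n + 1)) : ℕ) = tau i a := by
  unfold tau
  by_cases h1 : a = i.castSucc
  · rw [h1, Equiv.swap_apply_left]
    simp
  · by_cases h2 : a = i.succ
    · rw [h2, Equiv.swap_apply_right]
      simp
    · rw [Equiv.swap_apply_of_ne_of_ne h1 h2]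
      have h3 : (a : ℕ) ≠ i := fun h => h1 (Fin.ext (by simpa using h))
      have h4 : (a : ℕ) ≠ i + 1 := fun h => h2 (Fin.ext (by simpa using h))
      rw [if_neg h3, if_neg h4]

theorem PhiF_mem {m n : ℕ} {k : Fin (n + 1) → ℕ} {S : Finset ℕ} (i : Fin n)
    {w : Fin m → Fin (n + 1)} (hw : w ∈ A (m := m) k S) :
    PhiF S (i := i) (by have := i.is_lt; omega) w ∈
      A (m := m) (fun a => k (Equiv.swap i.castSucc i.succ a)) S := by
  unfold A at hw ⊢
  rw [mem_filter] at hw ⊢
  obtain ⟨_, h1, h2⟩ := hw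
  have hS : ∀ j ∈ S, Oc m (ext w) j := fun j hj => mem_Occs.mp (h2 hj)
  refine ⟨mem_univ _, ?_, ?_⟩
  · intro a
    rw [← cnt_ext, cnt_congr (fun t ht => ext_PhiF _ w ht), cnt_Phi hS, ← swap_val, cnt_ext, h1]
  · intro j hj
    rw [mem_Occs]
    exact Oc_congr (fun t ht => (ext_PhiF _ w ht).symm) (Phi_oc hj (hS j hj))

theorem A_swap {m n : ℕ} (k : Fin (n + 1) → ℕ) (S : Finset ℕ) (i : Fin n) :
    (A (m := m) k S).card =
      (A (m := m) (fun a => k (Equiv.swap i.castSucc i.succ a)) S).card := by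
  apply card_bij (fun w _ => PhiF S (i := i) (by have := i.is_lt; omega) w)
  · exact fun w hw => PhiF_mem i hw
  · intro w _ w' _ h
    have h1 := PhiF_PhiF (S := S) (i := (i : ℕ)) (by have := i.is_lt; omega) w
    have h2 := PhiF_PhiF (S := S) (i := (i : ℕ)) (by have := i.is_lt; omega) w'
    rw [← h1, ← h2]
    exact congrArg _ h
  · intro w hw
    have h := PhiF_mem i hw
    simp only [Equiv.swap_apply_self] at h
    exact ⟨_, h, PhiF_PhiF _ w⟩

theorem A_eq_sum {m n : ℕ} (k : Fin n → ℕ) (S : Finset ℕ) :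
    (A (m := m) k S).card =
      ∑ T ∈ (range (m + 1)).powerset.filter (fun T => S ⊆ T), (E (m := m) k T).card := by
  rw [card_eq_sum_card_fiberwise (f := fun w => Occs m (ext w))
    (t := (range (m + 1)).powerset.filter (fun T => S ⊆ T))]
  · apply sum_congr rfl
    intro T hT
    rw [mem_filter] at hT
    congr 1
    ext w
    unfold A E
    rw [mem_filter, mem_filter, mem_filter]
    constructor
    · rintro ⟨⟨h1, h2, h3⟩, h4⟩
      exact ⟨h1, h2, h4⟩
    · rintro ⟨h1, h2, h4⟩
      exact ⟨⟨h1, h2, by rw [h4]; exact hT.2⟩, h4⟩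
  · intro w hw
    rw [mem_coe] at hw
    unfold A at hw
    rw [mem_filter] at hw
    rw [mem_coe, mem_filter, mem_powerset]
    refine ⟨?_, hw.2.2⟩
    intro j hj
    rw [mem_Occs] at hj
    rw [mem_range]
    have := hj.1
    omega

theorem E_step {m n : ℕ} (k : Fin (n + 1) → ℕ) (i : Fin n) (S : Finset ℕ)
    (ih : ∀ T, T ⊆ range (m + 1) → S ⊆ T → T ≠ S → (E (m := m) k T).card =
      (E (m := m) (fun a => k (Equiv.swap i.castSucc i.succ a)) T).card) :
    (E (m := m) k S).card =
      (E (m := m) (fun a => k (Equiv.swap i.castSucc i.succ a)) S).card := by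
  by_cases hS : S ⊆ range (m + 1)
  · have h := A_swap (m := m) k S i
    have hmem : S ∈ (range (m + 1)).powerset.filter (fun T => S ⊆ T) := by
      rw [mem_filter, mem_powerset]
      exact ⟨hS, Subset.refl S⟩
    rw [A_eq_sum, A_eq_sum, ← add_sum_erase _ _ hmem, ← add_sum_erase _ _ hmem] at h
    have h' : ∑ T ∈ ((range (m + 1)).powerset.filter (fun T => S ⊆ T)).erase S,
        (E (m := m) k T).card = ∑ T ∈ ((range (m + 1)).powerset.filter (fun T => S ⊆ T)).erase S,
        (E (m := m) (fun a => k (Equiv.swap i.castSucc i.succ a)) T).card := by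
      apply sum_congr rfl
      intro T hT
      rw [mem_erase, mem_filter, mem_powerset] at hT
      exact ih T hT.2.1 hT.2.2 hT.1
    rw [h'] at h
    exact Nat.add_right_cancel h
  · have key : ∀ k : Fin (n + 1) → ℕ, E (m := m) k S = ∅ := by
      intro k
      rw [eq_empty_iff_forall_notMem]
      intro w hw
      unfold E at hw
      rw [mem_filter] at hw
      apply hS
      intro j hj
      rw [← hw.2.2, mem_Occs] at hj
      rw [mem_range]
      have := hj.1
      omega
    rw [key, key]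

theorem E_swap {m n : ℕ} (k : Fin (n + 1) → ℕ) (i : Fin n) :
    ∀ d (S : Finset ℕ), m + 1 ≤ S.card + d → (E (m := m) k S).card =
      (E (m := m) (fun a => k (Equiv.swap i.castSucc i.succ a)) S).card := by
  intro d
  induction d with
  | zero =>
    intro S hd
    exact E_step k i S (fun T h1 h2 h3 => by
      have h4 := card_lt_card (ssubset_of_subset_of_ne h2 (Ne.symm h3))
      have h5 := card_le_card h1
      rw [card_range] at h5
      omega)
  | succ d ih =>
    intro S hd
    exact E_step k i S (fun T h1 h2 h3 => by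
      have h4 := card_lt_card (ssubset_of_subset_of_ne h2 (Ne.symm h3))
      exact ih T (by omega))

theorem E_swap_all {m n : ℕ} (k : Fin (n + 1) → ℕ) (σ : Equiv.Perm (Fin (n + 1)))
    (S : Finset ℕ) : (E (m := m) k S).card = (E (m := m) (fun a => k (σ a)) S).card := by
  have hσ : σ ∈ Submonoid.closure
      (Set.range fun i : Fin n => Equiv.swap i.castSucc i.succ) := by
    rw [Equiv.Perm.mclosure_swap_castSucc_succ]
    trivial
  revert k
  induction hσ using Submonoid.closure_induction with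
  | mem x hx =>
    obtain ⟨i, rfl⟩ := hx
    intro k
    exact E_swap k i (m + 1) S (by omega)
  | one => exact fun k => rfl
  | mul x y _ _ hx hy =>
    intro k
    rw [hx k, hy (fun a => k (x a))]
    rfl

/-! ### the pattern -/

/-- The pattern `12435`. -/
def p5 : Equiv.Perm (Fin 5) := Equiv.swap 2 3

theorem p5_0 : p5 0 = 0 := by decide
theorem p5_1 : p5 1 = 1 := by decide
theorem p5_2 : p5 2 = 3 := by decide
theorem p5_3 : p5 3 = 2 := by decide
theorem p5_4 : p5 4 = 4 := by decide

theorem isOcc_iff {m n : ℕ} (w : Fin m → Fin n) (j : ℕ) :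
    IsOcc p5 w j ↔ Oc m (ext w) j := by
  constructor
  · rintro ⟨h0, h⟩
    refine ⟨h0, ?_, ?_, ?_, ?_⟩
    · have h1 := (h 0 1).mpr (by decide)
      rw [ext_of_lt w (by omega), ext_of_lt w (by omega)]
      exact h1
    · have h1 := (h 1 3).mpr (by decide)
      rw [ext_of_lt w (by omega), ext_of_lt w (by omega)]
      exact h1
    · have h1 := (h 3 2).mpr (by decide)
      rw [ext_of_lt w (by omega), ext_of_lt w (by omega)]
      exact h1
    · have h1 := (h 2 4).mpr (by decide)
      rw [ext_of_lt w (by omega), ext_of_lt w (by omega)]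
      exact h1
  · rintro ⟨h0, o1, o2, o3, o4⟩
    refine ⟨h0, fun a b => ?_⟩
    rw [Fin.lt_def, ← ext_of_lt w, ← ext_of_lt w]
    fin_cases a <;> fin_cases b <;>
      simp [p5_0, p5_1, p5_2, p5_3, p5_4] <;> omega

theorem occ_eq {m n : ℕ} (w : Fin m → Fin n) : occ p5 w = (Occs m (ext w)).card := by
  classical
  unfold occ Occs
  congr 1
  apply filter_congr
  intro j _
  exact isOcc_iff w j

/-- The count, as a sum over the sets of occurrences. -/
theorem count_eq {m n : ℕ} (k : Fin n → ℕ) (s : ℕ) :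
    Nat.card {w : Fin m → Fin n //
      (∀ a, (univ.filter (fun t => w t = a)).card = k a) ∧ occ p5 w = s} =
    ∑ S ∈ (range (m + 1)).powerset.filter (fun S => S.card = s), (E (m := m) k S).card := by
  classical
  rw [Nat.card_eq_fintype_card, Fintype.card_subtype,
    card_eq_sum_card_fiberwise (f := fun w => Occs m (ext w))
      (t := (range (m + 1)).powerset.filter (fun S => S.card = s))]
  · apply sum_congr rfl
    intro S hS
    rw [mem_filter] at hS
    congr 1
    ext w
    unfold E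
    rw [mem_filter, mem_filter, mem_filter, occ_eq]
    constructor
    · rintro ⟨⟨h1, h2, h3⟩, h4⟩
      exact ⟨h1, h2, h4⟩
    · rintro ⟨h1, h2, h4⟩
      exact ⟨⟨h1, h2, by rw [h4]; exact hS.2⟩, h4⟩
  · intro w hw
    rw [mem_coe, mem_filter, occ_eq] at hw
    rw [mem_coe, mem_filter, mem_powerset]
    refine ⟨?_, hw.2.2⟩
    intro j hj
    rw [mem_Occs] at hj
    rw [mem_range]
    have := hj.1
    omega

theorem stable_p5 : Stable p5 := by
  intro n hn k σ s
  unfold count
  rw [Equiv.sum_comp σ k]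
  rw [count_eq, count_eq]
  obtain ⟨n, rfl⟩ : ∃ n', n = n' + 1 := ⟨n - 1, by omega⟩
  exact sum_congr rfl (fun S _ => E_swap_all k σ S)

theorem not_monotone_p5 : ¬ Monotone p5 := by
  rintro (h | h)
  · have h1 := h 2 3 (by decide)
    rw [p5_2, p5_3] at h1
    exact absurd h1 (by decide)
  · have h1 := h 0 1 (by decide)
    rw [p5_0, p5_1] at h1
    exact absurd h1 (by decide)

/-- **Disproof of Q1.** The consecutive pattern `12435` is not monotone and it is stable. -/
theorem result : ∃ (l : ℕ) (p : Equiv.Perm (Fin l)), 1 ≤ l ∧ ¬ Monotone p ∧ Stable p :=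
  ⟨5, p5, by norm_num, not_monotone_p5, stable_p5⟩

end Pool.Agent.Results.MP_5514a7_co.StableNonMonotone
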